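import Mathlib
import Pool.Agent.W169.HF.DefsB

set_option autoImplicit false

/-! # helper8: the saddle point lemma `S_SADL` (adapted from `Pool.Agent.J4H2.DN.Sad`) -/

namespace Pool.Agent.J4H8.DT

open Complex Filter Topology Metric MeasureTheory Set

theorem sad0 {Q : ℂ → ℂ} {p : ℂ} {s θ ρ : ℝ} (hρ : 0 < ρ) (hs : 5 / ρ ≤ s) (hθ : 0 ≤ θ)
    (hθ1 : θ ≤ ρ / 100000)
    (h : ∀ w ∈ ball p ρ, DifferentiableAt ℂ Q w ∧ Q w ≠ 0 ∧
      ‖logDeriv Q w + (s : ℂ) ^ 2 * (w - p)‖ ≤ θ * s ^ 2) :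
    ∃ w₀ : ℂ, ‖w₀ - p‖ ≤ θ ∧
      (∀ y : ℝ, |y| ≤ ρ / 5 → ‖Q (w₀ + y)‖ ≤ Real.exp (-(s ^ 2 * y ^ 2 / 4)) * ‖Q w₀‖) ∧
      1 / 2 / s * ‖Q w₀‖ ≤ ‖∫ y in (-(ρ / 5) : ℝ)..(ρ / 5), Q (w₀ + y)‖ := by
  have hs0 : 0 < s := lt_of_lt_of_le (by positivity) hs
  obtain ⟨lam, hlam⟩ : ∃ lam : ℝ, lam = 5 * θ / (2 * ρ) := ⟨_, rfl⟩
  have hlam0 : 0 ≤ lam := by rw [hlam]; positivity
  have hlam1 : lam ≤ 1 / 40000 := by
    rw [hlam, div_le_iff₀ (by positivity)]
    linarith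
  obtain ⟨D, hD⟩ : ∃ D : ℂ → ℂ, D = fun w => logDeriv Q w + (s : ℂ) ^ 2 * (w - p) := ⟨_, rfl⟩
  have hDw' : ∀ w, D w = logDeriv Q w + (s : ℂ) ^ 2 * (w - p) := fun w => by rw [hD]
  have hQan : AnalyticOnNhd ℂ Q (ball p ρ) :=
    DifferentiableOn.analyticOnNhd (fun w hw => (h w hw).1.differentiableWithinAt) isOpen_ball
  have hDd : ∀ w ∈ ball p ρ, DifferentiableAt ℂ D w := by
    intro w hw
    have h1 : DifferentiableAt ℂ (logDeriv Q) w := by
      unfold logDeriv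
      exact ((hQan w hw).deriv.differentiableAt).div (h w hw).1 (h w hw).2.1
    rw [hD]
    exact h1.add (by fun_prop)
  have hD' : ∀ w ∈ ball p (ρ / 2), ‖deriv D w‖ ≤ lam * s ^ 2 := by
    intro w hw
    have hsub : closedBall w (2 * ρ / 5) ⊆ ball p ρ := by
      intro z hz
      rw [mem_ball] at hw ⊢
      rw [mem_closedBall] at hz
      have := dist_triangle z w p
      linarith
    have h1 := Complex.norm_deriv_le_of_forall_mem_sphere_norm_le (f := D) (c := w) (R := 2 * ρ / 5)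
      (C := θ * s ^ 2)
      (by positivity) (DifferentiableOn.diffContOnCl_ball (U := ball p ρ) (fun z hz =>
        (hDd z hz).differentiableWithinAt) hsub) (fun z hz => by
          rw [hDw']
          exact (h z (hsub (sphere_subset_closedBall hz))).2.2)
    refine h1.trans (le_of_eq ?_)
    rw [hlam]
    field_simp
  have hLip : ∀ w ∈ ball p (ρ / 2), ∀ z ∈ ball p (ρ / 2), ‖D z - D w‖ ≤ lam * s ^ 2 * ‖z - w‖ := by
    intro w hw z hz
    refine Convex.norm_image_sub_le_of_norm_deriv_le (s := ball p (ρ / 2)) (fun x hx => ?_) hD'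
      (convex_ball _ _) hw hz
    exact hDd x (ball_subset_ball (by linarith) hx)
  -- the fixed point
  have hs2 : (0 : ℝ) < s ^ 2 := by positivity
  have hns : ‖((s : ℂ) ^ 2)‖ = s ^ 2 := by rw [norm_pow, norm_real, Real.norm_of_nonneg hs0.le]
  obtain ⟨Tm, hTm⟩ : ∃ Tm : ℂ → ℂ, Tm = fun w => p + D w / (s : ℂ) ^ 2 := ⟨_, rfl⟩
  have hsub1 : closedBall p θ ⊆ ball p (ρ / 2) := closedBall_subset_ball (by linarith)
  have hsub2 : closedBall p θ ⊆ ball p ρ := closedBall_subset_ball (by linarith)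
  have hmap : MapsTo Tm (closedBall p θ) (closedBall p θ) := by
    intro w hw
    rw [mem_closedBall, dist_eq_norm, hTm]
    simp only [add_sub_cancel_left]
    rw [norm_div, hns, div_le_iff₀ hs2, hDw']
    exact (h w (hsub2 hw)).2.2
  have hcon : ContractingWith (1 / 2) (hmap.restrict Tm _ _) := by
    refine ⟨by norm_num, ?_⟩
    refine LipschitzWith.of_dist_le_mul fun a b => ?_
    rw [Subtype.dist_eq, Subtype.dist_eq, dist_eq_norm, dist_eq_norm]
    simp only [MapsTo.val_restrict_apply]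
    rw [hTm]
    simp only [add_sub_add_left_eq_sub, ← sub_div]
    rw [norm_div, hns, div_le_iff₀ hs2]
    have h1 := hLip b.1 (hsub1 b.2) a.1 (hsub1 a.2)
    refine h1.trans ?_
    have h2 : lam ≤ 1 / 2 := by linarith
    have h3 := norm_nonneg (a.1 - b.1)
    have h4 : lam * s ^ 2 * ‖a.1 - b.1‖ = lam * (s ^ 2 * ‖a.1 - b.1‖) := by ring
    rw [h4]
    have h5 : ((1 / 2 : NNReal) : ℝ) * ‖a.1 - b.1‖ * s ^ 2 = (1 / 2) * (s ^ 2 * ‖a.1 - b.1‖) := by
      push_cast; ring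
    rw [h5]
    gcongr
  obtain ⟨w₀, hw₀, hfix, -⟩ := hcon.exists_fixedPoint' isClosed_closedBall.isComplete hmap
    (x := p) (mem_closedBall_self hθ) (edist_ne_top _ _)
  have hDw : D w₀ = (s : ℂ) ^ 2 * (w₀ - p) := by
    have h1 : p + D w₀ / (s : ℂ) ^ 2 = w₀ := by
      have : Tm w₀ = w₀ := hfix
      rwa [hTm] at this
    have h2 : ((s : ℂ) ^ 2) ≠ 0 := by
      intro h0
      rw [h0, norm_zero] at hns
      linarith
    have h3 : D w₀ / (s : ℂ) ^ 2 = w₀ - p := by linear_combination h1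
    rw [div_eq_iff h2] at h3
    rw [h3]; ring
  have hwp : ‖w₀ - p‖ ≤ θ := by rwa [mem_closedBall, dist_eq_norm] at hw₀
  have hin : ∀ y : ℝ, |y| ≤ ρ / 5 → w₀ + y ∈ ball p (ρ / 2) := by
    intro y hy
    rw [mem_ball, dist_eq_norm]
    have h1 : w₀ + y - p = (w₀ - p) + y := by ring
    rw [h1]
    have h2 := norm_add_le (w₀ - p) (y : ℂ)
    rw [norm_real, Real.norm_eq_abs] at h2
    linarith
  have hin' : ∀ y : ℝ, |y| ≤ ρ / 5 → w₀ + y ∈ ball p ρ := fun y hy =>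
    ball_subset_ball (by linarith) (hin y hy)
  -- the normalised function
  obtain ⟨g, hg⟩ : ∃ g : ℝ → ℂ, g = fun y : ℝ => Q (w₀ + (y : ℂ)) * cexp ((s : ℂ) ^ 2 * (y : ℂ) ^ 2 / 2) := ⟨_, rfl⟩
  have hgv : ∀ y : ℝ, g y = Q (w₀ + (y : ℂ)) * cexp ((s : ℂ) ^ 2 * (y : ℂ) ^ 2 / 2) := fun y => by rw [hg]
  have hgd : ∀ y : ℝ, |y| ≤ ρ / 5 → HasDerivAt g ((D (w₀ + y) - D w₀) * g y) y := by
    intro y hy
    have hy' := hin' y hy
    have h0 := (h (w₀ + y) hy').2.1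
    have e1 : HasDerivAt (fun y : ℝ => w₀ + (y : ℂ)) 1 y := by
      have h1 : HasDerivAt (fun r : ℝ => (r : ℂ)) 1 y := Complex.ofRealCLM.hasDerivAt
      exact h1.const_add _
    have e2 : HasDerivAt (fun y : ℝ => Q (w₀ + (y : ℂ))) (deriv Q (w₀ + y) * 1) y :=
      HasDerivAt.comp y (h (w₀ + y) hy').1.hasDerivAt e1
    have e3 : HasDerivAt (fun y : ℝ => (s : ℂ) ^ 2 * (y : ℂ) ^ 2 / 2) ((s : ℂ) ^ 2 * y) y := by
      have h1 : HasDerivAt (fun r : ℝ => (r : ℂ)) 1 y := Complex.ofRealCLM.hasDerivAt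
      have h2 := ((h1.pow 2).const_mul ((s : ℂ) ^ 2)).div_const 2
      refine h2.congr_deriv ?_
      simp
      ring
    have e4 := e2.mul e3.cexp
    rw [hg]
    refine e4.congr_deriv ?_
    rw [hDw, hDw']
    simp only [logDeriv, Pi.div_apply]
    field_simp
    ring
  have hgn : ∀ y : ℝ, ‖g y‖ = ‖Q (w₀ + y)‖ * Real.exp (s ^ 2 * y ^ 2 / 2) := by
    intro y
    rw [hgv, norm_mul, norm_exp]
    congr 2
    have : ((s : ℂ) ^ 2 * (y : ℂ) ^ 2 / 2) = ((s ^ 2 * y ^ 2 / 2 : ℝ) : ℂ) := by push_cast; ring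
    rw [this, ofReal_re]
  have hg0 : g 0 = Q w₀ := by rw [hgv]; simp
  have he : ∀ y : ℝ, |y| ≤ ρ / 5 → ‖D (w₀ + y) - D w₀‖ ≤ lam * s ^ 2 * |y| := by
    intro y hy
    have h1 := hLip w₀ (hsub1 hw₀) (w₀ + y) (hin y hy)
    rwa [add_sub_cancel_left, norm_real, Real.norm_eq_abs] at h1
  -- the growth of g
  have hgb : ∀ y : ℝ, |y| ≤ ρ / 5 → ‖g y‖ ≤ ‖g 0‖ * Real.exp (lam * s ^ 2 * y ^ 2) := by
    intro y hy
    obtain ⟨G, hG⟩ : ∃ G : ℝ → ℂ, G = fun r => g (r * y) := ⟨_, rfl⟩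
    have hGv : ∀ r, G r = g (r * y) := fun r => by rw [hG]
    have hGd : ∀ r ∈ Icc (0 : ℝ) 1, HasDerivAt G (((D (w₀ + (r * y : ℝ)) - D w₀) * g (r * y)) * y) r := by
      intro r hr
      have h1 : |r * y| ≤ ρ / 5 := by
        rw [abs_mul, abs_of_nonneg hr.1]
        calc r * |y| ≤ 1 * |y| := by gcongr; exact hr.2
          _ ≤ _ := by linarith
      have h2 : HasDerivAt (fun r : ℝ => r * y) y r := by simpa using (hasDerivAt_id r).mul_const y
      have h3 := (hgd (r * y) h1).scomp r h2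
      rw [hG]
      refine h3.congr_deriv ?_
      rw [real_smul]; ring
    have hb := norm_le_gronwallBound_of_norm_deriv_right_le (f := G) (δ := ‖g 0‖)
      (K := lam * s ^ 2 * y ^ 2) (ε := 0) (a := 0) (b := 1)
      (fun r hr => (hGd r hr).continuousAt.continuousWithinAt)
      (fun r hr => (hGd r ⟨hr.1, hr.2.le⟩).hasDerivWithinAt) (by rw [hGv, zero_mul]) (fun r hr => by
        have h1 : |r * y| ≤ |y| := by
          rw [abs_mul, abs_of_nonneg hr.1]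
          calc r * |y| ≤ 1 * |y| := by gcongr; exact hr.2.le
            _ = _ := one_mul _
        have h2 := he (r * y) (h1.trans hy)
        rw [add_zero, norm_mul, norm_mul, norm_real, Real.norm_eq_abs]
        calc ‖D (w₀ + (r * y : ℝ)) - D w₀‖ * ‖g (r * y)‖ * |y| ≤
            (lam * s ^ 2 * |r * y|) * ‖g (r * y)‖ * |y| := by gcongr
          _ ≤ (lam * s ^ 2 * |y|) * ‖g (r * y)‖ * |y| := by gcongr
          _ = lam * s ^ 2 * (|y| * |y|) * ‖g (r * y)‖ := by ring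
          _ = _ := by rw [abs_mul_abs_self, hGv]; ring) 1 ⟨zero_le_one, le_rfl⟩
    rw [gronwallBound_ε0, hGv] at hb
    simpa using hb
  have hgs : ∀ y : ℝ, |y| ≤ ρ / 5 → ‖g y - g 0‖ ≤ lam * s ^ 2 * y ^ 2 *
      (‖g 0‖ * Real.exp (lam * s ^ 2 * y ^ 2)) := by
    intro y hy
    have hconv : Convex ℝ {x : ℝ | |x| ≤ |y|} := by
      have : {x : ℝ | |x| ≤ |y|} = Icc (-|y|) |y| := by ext x; simp [abs_le]
      rw [this]; exact convex_Icc _ _
    have h1 := hconv.norm_image_sub_le_of_norm_hasDerivWithin_le (f := g)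
      (f' := fun y => (D (w₀ + y) - D w₀) * g y)
      (C := lam * s ^ 2 * |y| * (‖g 0‖ * Real.exp (lam * s ^ 2 * y ^ 2)))
      (fun x hx => (hgd x (le_trans hx hy)).hasDerivWithinAt) (fun x hx => by
        have hx' : |x| ≤ |y| := hx
        rw [norm_mul]
        have h2 := he x (hx'.trans hy)
        have h3 := hgb x (hx'.trans hy)
        have h4 : x ^ 2 ≤ y ^ 2 := sq_le_sq.mpr hx'
        calc ‖D (w₀ + x) - D w₀‖ * ‖g x‖ ≤ (lam * s ^ 2 * |x|) *
            (‖g 0‖ * Real.exp (lam * s ^ 2 * x ^ 2)) := by gcongr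
          _ ≤ _ := by gcongr) (x := 0) (y := y) (show |(0 : ℝ)| ≤ |y| by simp) (show |y| ≤ |y| from le_rfl)
    refine h1.trans (le_of_eq ?_)
    rw [sub_zero, Real.norm_eq_abs]
    calc _ = lam * s ^ 2 * (|y| * |y|) * (‖g 0‖ * Real.exp (lam * s ^ 2 * y ^ 2)) := by ring
      _ = _ := by rw [abs_mul_abs_self]; ring
  -- back to Q
  have hQg : ∀ y : ℝ, Q (w₀ + y) = g y * (Real.exp (-(s ^ 2 * y ^ 2 / 2)) : ℝ) := by
    intro y
    rw [hgv]
    rw [mul_assoc, ofReal_exp, ← Complex.exp_add]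
    push_cast
    rw [show (s : ℂ) ^ 2 * (y : ℂ) ^ 2 / 2 + -((s : ℂ) ^ 2 * (y : ℂ) ^ 2 / 2) = 0 by ring, Complex.exp_zero,
      mul_one]
  have hsy : ∀ y : ℝ, 0 ≤ s ^ 2 * y ^ 2 := fun y => by positivity
  have hθs : ∀ y : ℝ, lam * s ^ 2 * y ^ 2 ≤ 1 / 40000 * (s ^ 2 * y ^ 2) := by
    intro y
    have h1 : lam * s ^ 2 * y ^ 2 = lam * (s ^ 2 * y ^ 2) := by ring
    rw [h1]
    exact mul_le_mul_of_nonneg_right hlam1 (hsy y)
  refine ⟨w₀, hwp, fun y hy => ?_, ?_⟩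
  · rw [hQg y, norm_mul, norm_real, Real.norm_of_nonneg (Real.exp_pos _).le]
    have h1 := hgb y hy
    rw [hg0] at h1
    calc ‖g y‖ * Real.exp (-(s ^ 2 * y ^ 2 / 2)) ≤
        (‖Q w₀‖ * Real.exp (lam * s ^ 2 * y ^ 2)) * Real.exp (-(s ^ 2 * y ^ 2 / 2)) := by gcongr
      _ = Real.exp (lam * s ^ 2 * y ^ 2 + -(s ^ 2 * y ^ 2 / 2)) * ‖Q w₀‖ := by rw [Real.exp_add]; ring
      _ ≤ Real.exp (-(s ^ 2 * y ^ 2 / 4)) * ‖Q w₀‖ := by
          apply mul_le_mul_of_nonneg_right _ (norm_nonneg _)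
          apply Real.exp_le_exp.2
          have h2 := hθs y
          have h3 := hsy y
          linarith
  · -- the integral
    have hρ5 : -(ρ / 5) ≤ ρ / 5 := by linarith
    have hcg : ContinuousOn g (Icc (-(ρ / 5)) (ρ / 5)) := fun y hy =>
      (hgd y (abs_le.2 hy)).continuousAt.continuousWithinAt
    have hce : Continuous (fun y : ℝ => ((Real.exp (-(s ^ 2 * y ^ 2 / 2)) : ℝ) : ℂ)) := by fun_prop
    have hi1 : IntervalIntegrable (fun y : ℝ => g 0 * ((Real.exp (-(s ^ 2 * y ^ 2 / 2)) : ℝ) : ℂ)) volume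
        (-(ρ / 5)) (ρ / 5) := (hce.const_mul _ |>.intervalIntegrable _ _)
    have hi2 : IntervalIntegrable (fun y : ℝ => (g y - g 0) * ((Real.exp (-(s ^ 2 * y ^ 2 / 2)) : ℝ) : ℂ))
        volume (-(ρ / 5)) (ρ / 5) := by
      apply ContinuousOn.intervalIntegrable
      rw [uIcc_of_le hρ5]
      exact (hcg.sub continuousOn_const).mul hce.continuousOn
    have e1 : ∫ y in (-(ρ / 5) : ℝ)..(ρ / 5), Q (w₀ + y) =
        (∫ y in (-(ρ / 5) : ℝ)..(ρ / 5), g 0 * ((Real.exp (-(s ^ 2 * y ^ 2 / 2)) : ℝ) : ℂ)) +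
        ∫ y in (-(ρ / 5) : ℝ)..(ρ / 5), (g y - g 0) * ((Real.exp (-(s ^ 2 * y ^ 2 / 2)) : ℝ) : ℂ) := by
      rw [← intervalIntegral.integral_add hi1 hi2]
      congr 1
      funext y
      rw [hQg y]
      ring
    have hsρ : 1 / s ≤ ρ / 5 := by
      rw [div_le_div_iff₀ hs0 (by norm_num)]
      rw [div_le_iff₀ hρ] at hs
      linarith
    have m1 : (6 / 5) / s * ‖Q w₀‖ ≤
        ‖∫ y in (-(ρ / 5) : ℝ)..(ρ / 5), g 0 * ((Real.exp (-(s ^ 2 * y ^ 2 / 2)) : ℝ) : ℂ)‖ := by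
      rw [intervalIntegral.integral_const_mul, norm_mul, hg0, mul_comm ‖Q w₀‖]
      apply mul_le_mul_of_nonneg_right _ (norm_nonneg _)
      rw [intervalIntegral.integral_ofReal, norm_real]
      refine le_trans ?_ (Real.le_norm_self _)
      have hcr : Continuous (fun y : ℝ => Real.exp (-(s ^ 2 * y ^ 2 / 2))) := by fun_prop
      have h1 : ∫ y in (-(1 / s) : ℝ)..(1 / s), Real.exp (-(s ^ 2 * y ^ 2 / 2)) ≤
          ∫ y in (-(ρ / 5) : ℝ)..(ρ / 5), Real.exp (-(s ^ 2 * y ^ 2 / 2)) := by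
        apply intervalIntegral.integral_mono_interval (by linarith) (by
          have : 0 < 1 / s := by positivity
          linarith) hsρ
        · exact ae_of_all _ fun u => (Real.exp_pos _).le
        · exact hcr.intervalIntegrable _ _
      refine le_trans ?_ h1
      have h2 : ∫ y in (-(1 / s) : ℝ)..(1 / s), (3 / 5 : ℝ) ≤
          ∫ y in (-(1 / s) : ℝ)..(1 / s), Real.exp (-(s ^ 2 * y ^ 2 / 2)) := by
        apply intervalIntegral.integral_mono_on (by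
          have : 0 < 1 / s := by positivity
          linarith) intervalIntegrable_const (hcr.intervalIntegrable _ _)
        intro u hu
        have h3 : s ^ 2 * u ^ 2 ≤ 1 := by
          have h4 : |u| ≤ 1 / s := abs_le.2 hu
          have h5 : |s * u| ≤ 1 := by
            rw [abs_mul, abs_of_pos hs0]
            calc s * |u| ≤ s * (1 / s) := by gcongr
              _ = 1 := by field_simp
          have h6 := (sq_le_one_iff_abs_le_one (s * u)).2 h5
          rw [mul_pow] at h6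
          exact h6
        have h7 : Real.exp (-(1 / 2)) ≤ Real.exp (-(s ^ 2 * u ^ 2 / 2)) := by
          apply Real.exp_le_exp.2; linarith
        refine le_trans ?_ h7
        have h8 : Real.exp (-(1 / 2)) = (Real.exp (1 / 2))⁻¹ := Real.exp_neg _
        rw [h8, le_inv_comm₀ (by norm_num) (Real.exp_pos _)]
        have h9 : Real.exp (1 / 2) ^ 2 ≤ ((3 / 5 : ℝ)⁻¹) ^ 2 := by
          rw [← Real.exp_nat_mul]
          have h10 := Real.exp_one_lt_d9
          norm_num at h10 ⊢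
          linarith
        exact le_of_sq_le_sq h9 (by norm_num)
      rw [intervalIntegral.integral_const] at h2
      refine le_trans (le_of_eq ?_) h2
      rw [smul_eq_mul]
      ring
    have m2 : ‖∫ y in (-(ρ / 5) : ℝ)..(ρ / 5), (g y - g 0) * ((Real.exp (-(s ^ 2 * y ^ 2 / 2)) : ℝ) : ℂ)‖ ≤
        (1 / 5) / s * ‖Q w₀‖ := by
      have h1 : ∀ y ∈ Ioc (-(ρ / 5)) (ρ / 5), ‖(g y - g 0) * ((Real.exp (-(s ^ 2 * y ^ 2 / 2)) : ℝ) : ℂ)‖ ≤
          (1 / 5000 * ‖Q w₀‖) * Real.exp (-(s ^ 2 / 4) * y ^ 2) := by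
        intro y hy
        have h2 := hgs y (abs_le.2 ⟨hy.1.le, hy.2⟩)
        rw [norm_mul, norm_real, Real.norm_of_nonneg (Real.exp_pos _).le]
        have h3 := hsy y
        obtain ⟨X, hX⟩ : ∃ X : ℝ, X = s ^ 2 * y ^ 2 := ⟨_, rfl⟩
        rw [← hX] at h3
        have h4 : lam * s ^ 2 * y ^ 2 = lam * X := by rw [hX]; ring
        rw [h4, hg0] at h2
        have h5 : lam * X ≤ 1 / 40000 * X := mul_le_mul_of_nonneg_right hlam1 h3
        have h6 : X ≤ 8 * Real.exp (X / 8) := by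
          have := Real.add_one_le_exp (X / 8)
          linarith
        have h7 : lam * X ≤ 1 / 5000 * Real.exp (X / 8) := by linarith
        calc ‖g y - g 0‖ * Real.exp (-(s ^ 2 * y ^ 2 / 2)) ≤
              (lam * X * (‖Q w₀‖ * Real.exp (lam * X))) * Real.exp (-(s ^ 2 * y ^ 2 / 2)) := by
              rw [hg0]; gcongr
          _ ≤ (1 / 5000 * Real.exp (X / 8) * (‖Q w₀‖ * Real.exp (X / 8))) * Real.exp (-(s ^ 2 * y ^ 2 / 2)) := by
              gcongr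
              linarith
          _ = (1 / 5000 * ‖Q w₀‖) * Real.exp (-(s ^ 2 / 4) * y ^ 2) := by
              have e2 : Real.exp (-(s ^ 2 / 4) * y ^ 2) = Real.exp (X / 8) * Real.exp (X / 8) *
                  Real.exp (-(s ^ 2 * y ^ 2 / 2)) := by
                rw [← Real.exp_add, ← Real.exp_add]
                congr 1
                rw [hX]; ring
              rw [e2]; ring
      have hb : 0 < s ^ 2 / 4 := by positivity
      have hint : Integrable (fun y : ℝ => Real.exp (-(s ^ 2 / 4) * y ^ 2)) := integrable_exp_neg_mul_sq hb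
      calc ‖∫ y in (-(ρ / 5) : ℝ)..(ρ / 5), (g y - g 0) * ((Real.exp (-(s ^ 2 * y ^ 2 / 2)) : ℝ) : ℂ)‖ ≤
            ∫ y in (-(ρ / 5) : ℝ)..(ρ / 5), (1 / 5000 * ‖Q w₀‖) * Real.exp (-(s ^ 2 / 4) * y ^ 2) := by
            apply intervalIntegral.norm_integral_le_of_norm_le hρ5
            · exact ae_of_all _ h1
            · exact (hint.const_mul _).intervalIntegrable
        _ ≤ ∫ y : ℝ, (1 / 5000 * ‖Q w₀‖) * Real.exp (-(s ^ 2 / 4) * y ^ 2) := by
            rw [intervalIntegral.integral_of_le hρ5]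
            apply setIntegral_le_integral (hint.const_mul _)
            exact ae_of_all _ fun u => by
              show 0 ≤ (1 / 5000 * ‖Q w₀‖) * Real.exp (-(s ^ 2 / 4) * u ^ 2)
              positivity
        _ = (1 / 5000 * ‖Q w₀‖) * Real.sqrt (Real.pi / (s ^ 2 / 4)) := by
            rw [integral_const_mul, integral_gaussian]
        _ ≤ (1 / 5000 * ‖Q w₀‖) * (4 / s) := by
            have h2 : Real.sqrt (Real.pi / (s ^ 2 / 4)) ≤ 4 / s := by
              rw [Real.sqrt_le_left (by positivity)]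
              have h3 := Real.pi_lt_four
              rw [div_pow, div_div_eq_mul_div]
              apply div_le_div_of_nonneg_right _ (by positivity)
              linarith
            gcongr
        _ ≤ (1 / 5) / s * ‖Q w₀‖ := by
            have h2 : 0 ≤ ‖Q w₀‖ / s := by positivity
            calc (1 / 5000 * ‖Q w₀‖) * (4 / s) = (1 / 1250) * (‖Q w₀‖ / s) := by ring
              _ ≤ (1 / 5) * (‖Q w₀‖ / s) := by gcongr; norm_num
              _ = _ := by ring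
    rw [e1]
    have h6 := norm_sub_le_norm_add
      (∫ y in (-(ρ / 5) : ℝ)..(ρ / 5), g 0 * ((Real.exp (-(s ^ 2 * y ^ 2 / 2)) : ℝ) : ℂ))
      (∫ y in (-(ρ / 5) : ℝ)..(ρ / 5), (g y - g 0) * ((Real.exp (-(s ^ 2 * y ^ 2 / 2)) : ℝ) : ℂ))
    have h7 : 0 ≤ ‖Q w₀‖ / s := by positivity
    have h8 : (6 / 5) / s * ‖Q w₀‖ = (6 / 5) * (‖Q w₀‖ / s) := by ring
    have h9 : (1 / 5) / s * ‖Q w₀‖ = (1 / 5) * (‖Q w₀‖ / s) := by ring
    have h10 : 1 / 2 / s * ‖Q w₀‖ = (1 / 2) * (‖Q w₀‖ / s) := by ring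
    linarith

theorem t_sadl : Pool.Agent.W169.HF.S_SADL := by
  intro F p μ ρ s θ hρ hρ1 hs1 hs2 hθ hθ1 hL
  have hs0 : 0 < s := by linarith
  have hsC : (s : ℂ) ≠ 0 := by exact_mod_cast hs0.ne'
  apply sad0 hρ hs2 hθ.le hθ1
  intro w hw
  obtain ⟨h1, h2, h3⟩ := hL w hw
  have hg : HasDerivAt (fun w : ℂ => -((s : ℂ) ^ 2 * (w - (p - μ / (s : ℂ) ^ 2)) ^ 2 / 2))
      (-((s : ℂ) ^ 2 * (w - (p - μ / (s : ℂ) ^ 2)))) w := by
    have e1 : HasDerivAt (fun w : ℂ => w - (p - μ / (s : ℂ) ^ 2)) 1 w := (hasDerivAt_id' w).sub_const _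
    have e2 := ((((e1.pow 2).const_mul ((s : ℂ) ^ 2)).div_const 2).neg)
    refine e2.congr_deriv ?_
    simp
    ring
  have hd : HasDerivAt (Pool.Agent.W169.HF.Q F s (p - μ / (s : ℂ) ^ 2))
      (cexp (-((s : ℂ) ^ 2 * (w - (p - μ / (s : ℂ) ^ 2)) ^ 2 / 2)) *
        (-((s : ℂ) ^ 2 * (w - (p - μ / (s : ℂ) ^ 2)))) * F w +
        cexp (-((s : ℂ) ^ 2 * (w - (p - μ / (s : ℂ) ^ 2)) ^ 2 / 2)) * deriv F w) w :=
    (hg.cexp).mul h1.hasDerivAt
  refine ⟨hd.differentiableAt, mul_ne_zero (exp_ne_zero _) h2, ?_⟩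
  have e : logDeriv (Pool.Agent.W169.HF.Q F s (p - μ / (s : ℂ) ^ 2)) w + (s : ℂ) ^ 2 * (w - p) =
      logDeriv F w - μ := by
    rw [logDeriv_apply, hd.deriv, logDeriv_apply]
    unfold Pool.Agent.W169.HF.Q
    field_simp
    ring
  rw [e]
  exact h3

end Pool.Agent.J4H8.DT
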